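import Mathlib

/-!
# Mod 2 crossing numbers of polygonal curves in the plane

For segments `[a, b]` and `[d, e]` we define a number `cr a b d e` modulo 2 by a formula which is
additive for polygonal curves. If it is odd, and the abscissae of `a, b` are different from those of
`d, e`, then the two segments meet.
-/

set_option autoImplicit false

namespace Pool.Agent.Helper38.PL

open Finset

/-- the abscissa of `d` is between those of `a` and `b` -/
def btw (a b d : ℝ × ℝ) : Prop := ¬ (a.1 < d.1 ↔ b.1 < d.1)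

/-- `d` is strictly below the line through `a` and `b` -/
def blw (a b d : ℝ × ℝ) : Prop :=
  if a.1 < b.1 then (d.2 - a.2) * (b.1 - a.1) < (b.2 - a.2) * (d.1 - a.1)
  else (b.2 - a.2) * (d.1 - a.1) < (d.2 - a.2) * (b.1 - a.1)

open Classical in
/-- the upward ray from `d` meets `[a, b]` -/
noncomputable def rU (a b d : ℝ × ℝ) : ZMod 2 := if btw a b d ∧ blw a b d then 1 else 0

open Classical in
/-- the downward ray from `d` meets `[a, b]` -/
noncomputable def rD (a b d : ℝ × ℝ) : ZMod 2 := if btw a b d ∧ ¬ blw a b d then 1 else 0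

/-- the crossing number modulo 2 -/
noncomputable def cr (a b d e : ℝ × ℝ) : ZMod 2 := rU a b d + rU a b e + rD d e a + rD d e b

open Classical in
theorem rU_add_rD (a b d : ℝ × ℝ) :
    rU a b d + rD a b d = (if a.1 < d.1 then 1 else 0) + (if b.1 < d.1 then 1 else 0) := by
  unfold rU rD btw
  by_cases h1 : a.1 < d.1 <;> by_cases h2 : b.1 < d.1 <;> by_cases h3 : blw a b d <;>
    simp [h1, h2, h3] <;> decide

/-- a point of the segment with the abscissa of `d` -/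
theorem btw_point {a b d : ℝ × ℝ} (h : btw a b d) :
    ∃ t : ℝ, 0 ≤ t ∧ t ≤ 1 ∧ a.1 + t * (b.1 - a.1) = d.1 ∧
      (blw a b d ↔ d.2 < a.2 + t * (b.2 - a.2)) := by
  unfold btw at h
  rcases lt_trichotomy a.1 b.1 with hab | hab | hab
  · have h1 : a.1 < d.1 ∧ ¬ b.1 < d.1 := by
      by_contra hc
      apply h
      constructor
      · intro h2
        by_contra h3
        exact hc ⟨h2, h3⟩
      · intro h2
        exact lt_trans hab h2
    obtain ⟨h1, h2⟩ := h1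
    rw [not_lt] at h2
    have hpos : 0 < b.1 - a.1 := by linarith
    refine ⟨(d.1 - a.1) / (b.1 - a.1), ?_, ?_, ?_, ?_⟩
    · apply div_nonneg <;> linarith
    · rw [div_le_one hpos]
      linarith
    · field_simp
      ring
    · unfold blw
      rw [if_pos hab]
      rw [show a.2 + (d.1 - a.1) / (b.1 - a.1) * (b.2 - a.2)
        = a.2 + ((b.2 - a.2) * (d.1 - a.1)) / (b.1 - a.1) by ring]
      rw [← sub_lt_iff_lt_add', lt_div_iff₀ hpos]
  · exfalso
    apply h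
    rw [hab]
  · have h1 : b.1 < d.1 ∧ ¬ a.1 < d.1 := by
      by_contra hc
      apply h
      constructor
      · intro h2
        exact lt_trans hab h2
      · intro h2
        by_contra h3
        exact hc ⟨h2, h3⟩
    obtain ⟨h1, h2⟩ := h1
    rw [not_lt] at h2
    have hpos : 0 < a.1 - b.1 := by linarith
    refine ⟨(a.1 - d.1) / (a.1 - b.1), ?_, ?_, ?_, ?_⟩
    · apply div_nonneg <;> linarith
    · rw [div_le_one hpos]
      linarith
    · field_simp
      ring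
    · unfold blw
      rw [if_neg (not_lt.mpr hab.le)]
      rw [show a.2 + (a.1 - d.1) / (a.1 - b.1) * (b.2 - a.2)
        = a.2 + ((b.2 - a.2) * (a.1 - d.1)) / (a.1 - b.1) by ring]
      rw [← sub_lt_iff_lt_add', lt_div_iff₀ hpos]
      constructor <;> intro h5 <;> nlinarith

theorem rU_point {a b d : ℝ × ℝ} (h : rU a b d = 1) :
    ∃ t : ℝ, 0 ≤ t ∧ t ≤ 1 ∧ a.1 + t * (b.1 - a.1) = d.1 ∧ d.2 ≤ a.2 + t * (b.2 - a.2) := by
  unfold rU at h
  split_ifs at h with h1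
  · obtain ⟨t, h2, h3, h4, h5⟩ := btw_point h1.1
    exact ⟨t, h2, h3, h4, (h5.mp h1.2).le⟩
  · exact absurd h (by decide)

theorem rD_point {a b d : ℝ × ℝ} (h : rD a b d = 1) :
    ∃ t : ℝ, 0 ≤ t ∧ t ≤ 1 ∧ a.1 + t * (b.1 - a.1) = d.1 ∧ a.2 + t * (b.2 - a.2) ≤ d.2 := by
  unfold rD at h
  split_ifs at h with h1
  · obtain ⟨t, h2, h3, h4, h5⟩ := btw_point h1.1
    refine ⟨t, h2, h3, h4, ?_⟩
    rw [← not_lt]
    intro h6
    exact h1.2 (h5.mpr h6)
  · exact absurd h (by decide)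

theorem zmod2_cases (x : ZMod 2) : x = 0 ∨ x = 1 := by
  revert x
  decide

theorem four_sum {x y z w : ZMod 2} (h : x + y + z + w = 1) : x = 1 ∨ y = 1 ∨ z = 1 ∨ w = 1 := by
  revert x y z w
  decide

/-- segments with an odd crossing number meet -/
theorem meet_of_cr {a b d e : ℝ × ℝ} (h1 : a.1 ≠ d.1) (h2 : a.1 ≠ e.1) (h3 : b.1 ≠ d.1)
    (h4 : b.1 ≠ e.1) (h : cr a b d e = 1) :
    ∃ s t : ℝ, (0 ≤ s ∧ s ≤ 1) ∧ (0 ≤ t ∧ t ≤ 1) ∧
      a.1 + s * (b.1 - a.1) = d.1 + t * (e.1 - d.1) ∧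
      a.2 + s * (b.2 - a.2) = d.2 + t * (e.2 - d.2) := by
  classical
  have hpos : ∃ s t : ℝ, (0 ≤ s ∧ s ≤ 1) ∧ (0 ≤ t ∧ t ≤ 1) ∧
      a.1 + s * (b.1 - a.1) = d.1 + t * (e.1 - d.1) ∧
      d.2 + t * (e.2 - d.2) ≤ a.2 + s * (b.2 - a.2) := by
    unfold cr at h
    rcases four_sum h with h5 | h5 | h5 | h5
    · obtain ⟨s, k1, k2, k3, k4⟩ := rU_point h5
      exact ⟨s, 0, ⟨k1, k2⟩, ⟨le_refl _, zero_le_one⟩, by linarith, by linarith⟩
    · obtain ⟨s, k1, k2, k3, k4⟩ := rU_point h5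
      exact ⟨s, 1, ⟨k1, k2⟩, ⟨zero_le_one, le_refl _⟩, by linarith, by linarith⟩
    · obtain ⟨s, k1, k2, k3, k4⟩ := rD_point h5
      exact ⟨0, s, ⟨le_refl _, zero_le_one⟩, ⟨k1, k2⟩, by linarith, by linarith⟩
    · obtain ⟨s, k1, k2, k3, k4⟩ := rD_point h5
      exact ⟨1, s, ⟨zero_le_one, le_refl _⟩, ⟨k1, k2⟩, by linarith, by linarith⟩
  have hcomp : rD a b d + rD a b e + rU d e a + rU d e b = 1 := by
    have e1 := rU_add_rD a b d
    have e2 := rU_add_rD a b e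
    have e3 := rU_add_rD d e a
    have e4 := rU_add_rD d e b
    have two : (2 : ZMod 2) = 0 := by decide
    have s1 : ∀ x y : ℝ, x ≠ y → (if x < y then (1 : ZMod 2) else 0) + (if y < x then 1 else 0) = 1 := by
      intro x y hxy
      rcases lt_or_gt_of_ne hxy with h6 | h6
      · rw [if_pos h6, if_neg (not_lt.mpr h6.le), add_zero]
      · rw [if_neg (not_lt.mpr (le_of_lt h6)), if_pos h6, zero_add]
    have s2 := s1 _ _ h1
    have s3 := s1 _ _ h2
    have s4 := s1 _ _ h3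
    have s5 := s1 _ _ h4
    unfold cr at h
    linear_combination e1 + e2 + e3 + e4 + s2 + s3 + s4 + s5 - h + two
  have hneg : ∃ s t : ℝ, (0 ≤ s ∧ s ≤ 1) ∧ (0 ≤ t ∧ t ≤ 1) ∧
      a.1 + s * (b.1 - a.1) = d.1 + t * (e.1 - d.1) ∧
      a.2 + s * (b.2 - a.2) ≤ d.2 + t * (e.2 - d.2) := by
    rcases four_sum hcomp with h5 | h5 | h5 | h5
    · obtain ⟨s, k1, k2, k3, k4⟩ := rD_point h5
      exact ⟨s, 0, ⟨k1, k2⟩, ⟨le_refl _, zero_le_one⟩, by linarith, by linarith⟩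
    · obtain ⟨s, k1, k2, k3, k4⟩ := rD_point h5
      exact ⟨s, 1, ⟨k1, k2⟩, ⟨zero_le_one, le_refl _⟩, by linarith, by linarith⟩
    · obtain ⟨s, k1, k2, k3, k4⟩ := rU_point h5
      exact ⟨0, s, ⟨le_refl _, zero_le_one⟩, ⟨k1, k2⟩, by linarith, by linarith⟩
    · obtain ⟨s, k1, k2, k3, k4⟩ := rU_point h5
      exact ⟨1, s, ⟨zero_le_one, le_refl _⟩, ⟨k1, k2⟩, by linarith, by linarith⟩
  obtain ⟨s, t, ⟨hs0, hs1⟩, ⟨ht0, ht1⟩, hx, hy⟩ := hpos
  obtain ⟨s', t', ⟨hs0', hs1'⟩, ⟨ht0', ht1'⟩, hx', hy'⟩ := hneg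
  set g : ℝ := (a.2 + s * (b.2 - a.2)) - (d.2 + t * (e.2 - d.2)) with hg
  set g' : ℝ := (d.2 + t' * (e.2 - d.2)) - (a.2 + s' * (b.2 - a.2)) with hg'
  have hg0 : 0 ≤ g := by rw [hg]; linarith
  have hg0' : 0 ≤ g' := by rw [hg']; linarith
  rcases eq_or_lt_of_le (add_nonneg hg0 hg0') with h0 | h0
  · have : g = 0 := by linarith
    exact ⟨s, t, ⟨hs0, hs1⟩, ⟨ht0, ht1⟩, hx, by rw [hg] at this; linarith⟩
  · have hu : g' / (g + g') + g / (g + g') = 1 := by
      rw [← add_div, add_comm g' g, div_self h0.ne']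
    have hu0 : 0 ≤ g' / (g + g') := div_nonneg hg0' h0.le
    have hv0 : 0 ≤ g / (g + g') := div_nonneg hg0 h0.le
    have hbal : g' / (g + g') * g = g / (g + g') * g' := by ring
    set u := g' / (g + g') with hudef
    set v := g / (g + g') with hvdef
    refine ⟨u * s + v * s', u * t + v * t', ⟨by positivity, ?_⟩, ⟨by positivity, ?_⟩, ?_, ?_⟩
    · nlinarith
    · nlinarith
    · have hv : v = 1 - u := by linarith
      rw [hv]
      linear_combination u * hx + (1 - u) * hx'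
    · have hv : v = 1 - u := by linarith
      rw [hv] at hbal ⊢
      rw [hg, hg'] at hbal
      linear_combination hbal

/-! ## Telescoping -/

theorem tele (x : ℕ → ZMod 2) (n : ℕ) : ∑ l ∈ range n, (x l + x (l + 1)) = x 0 + x n := by
  induction n with
  | zero =>
    rw [sum_range_zero]
    have : ∀ y : ZMod 2, 0 = y + y := by decide
    exact this _
  | succ n ih =>
    rw [sum_range_succ, ih]
    have : ∀ y z w : ZMod 2, y + z + (z + w) = y + w := by decide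
    exact this _ _ _

/-- total crossing number of two polygons -/
noncomputable def CR (A B : ℕ → ℝ × ℝ) (N : ℕ) : ZMod 2 :=
  ∑ k ∈ range N, ∑ l ∈ range N, cr (A k) (A (k + 1)) (B l) (B (l + 1))

noncomputable def VU (A : ℕ → ℝ × ℝ) (N : ℕ) (w : ℝ × ℝ) : ZMod 2 :=
  ∑ k ∈ range N, rU (A k) (A (k + 1)) w

noncomputable def VD (A : ℕ → ℝ × ℝ) (N : ℕ) (w : ℝ × ℝ) : ZMod 2 :=
  ∑ k ∈ range N, rD (A k) (A (k + 1)) w

theorem CR_eq (A B : ℕ → ℝ × ℝ) (N : ℕ) :
    CR A B N = VU A N (B 0) + VU A N (B N) + VD B N (A 0) + VD B N (A N) := by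
  have h1 : CR A B N = (∑ k ∈ range N, ∑ l ∈ range N,
      (rU (A k) (A (k + 1)) (B l) + rU (A k) (A (k + 1)) (B (l + 1))))
      + ∑ l ∈ range N, ∑ k ∈ range N,
      (rD (B l) (B (l + 1)) (A k) + rD (B l) (B (l + 1)) (A (k + 1))) := by
    rw [sum_comm (f := fun l k => rD (B l) (B (l + 1)) (A k) + rD (B l) (B (l + 1)) (A (k + 1)))]
    unfold CR
    rw [← sum_add_distrib]
    apply sum_congr rfl
    intro k _
    rw [← sum_add_distrib]
    apply sum_congr rfl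
    intro l _
    unfold cr
    ring
  rw [h1]
  have h2 : ∀ k, ∑ l ∈ range N, (rU (A k) (A (k + 1)) (B l) + rU (A k) (A (k + 1)) (B (l + 1)))
      = rU (A k) (A (k + 1)) (B 0) + rU (A k) (A (k + 1)) (B N) :=
    fun k => tele (fun l => rU (A k) (A (k + 1)) (B l)) N
  have h3 : ∀ l, ∑ k ∈ range N, (rD (B l) (B (l + 1)) (A k) + rD (B l) (B (l + 1)) (A (k + 1)))
      = rD (B l) (B (l + 1)) (A 0) + rD (B l) (B (l + 1)) (A N) :=
    fun l => tele (fun k => rD (B l) (B (l + 1)) (A k)) N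
  rw [sum_congr rfl (fun k _ => h2 k), sum_congr rfl (fun l _ => h3 l), sum_add_distrib,
    sum_add_distrib]
  unfold VU VD
  ring

open Classical in
theorem VU_add_VD (A : ℕ → ℝ × ℝ) (N : ℕ) (w : ℝ × ℝ) :
    VU A N w + VD A N w
      = (if (A 0).1 < w.1 then 1 else 0) + (if (A N).1 < w.1 then 1 else 0) := by
  unfold VU VD
  rw [← sum_add_distrib, sum_congr rfl (fun k _ => rU_add_rD (A k) (A (k + 1)) w)]
  exact tele (fun k => if (A k).1 < w.1 then 1 else 0) N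

/-- The parity of the number of crossings of independent edges of a polygonal drawing of the
complete bipartite graph with parts of size three. -/
theorem K33_parity (P : Fin 3 → Fin 3 → ℕ → ℝ × ℝ) (N : ℕ) (p q : Fin 3 → ℝ × ℝ)
    (h0 : ∀ i j, P i j 0 = p i) (h1 : ∀ i j, P i j N = q j)
    (hq : ∀ j l, j ≠ l → (q j).1 ≠ (q l).1) :
    CR (P 0 0) (P 1 1) N + CR (P 0 0) (P 1 2) N + CR (P 0 1) (P 1 0) N + CR (P 0 1) (P 1 2) N
    + CR (P 0 2) (P 1 0) N + CR (P 0 2) (P 1 1) N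
    + (CR (P 0 0) (P 2 1) N + CR (P 0 0) (P 2 2) N + CR (P 0 1) (P 2 0) N + CR (P 0 1) (P 2 2) N
    + CR (P 0 2) (P 2 0) N + CR (P 0 2) (P 2 1) N)
    + (CR (P 1 0) (P 2 1) N + CR (P 1 0) (P 2 2) N + CR (P 1 1) (P 2 0) N + CR (P 1 1) (P 2 2) N
    + CR (P 1 2) (P 2 0) N + CR (P 1 2) (P 2 1) N) = 1 := by
  classical
  have two : (2 : ZMod 2) = 0 := by decide
  simp only [CR_eq, h0, h1]
  have s1 : ∀ x y : ℝ, x ≠ y → (if x < y then (1 : ZMod 2) else 0) + (if y < x then 1 else 0) = 1 := by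
    intro x y hxy
    rcases lt_or_gt_of_ne hxy with h6 | h6
    · rw [if_pos h6, if_neg (not_lt.mpr h6.le), add_zero]
    · rw [if_neg (not_lt.mpr (le_of_lt h6)), if_pos h6, zero_add]
  have a01 := s1 _ _ (hq 0 1 (by decide))
  have a02 := s1 _ _ (hq 0 2 (by decide))
  have a12 := s1 _ _ (hq 1 2 (by decide))
  have b01 := VU_add_VD (P 1 0) N (q 1)
  have b02 := VU_add_VD (P 1 0) N (q 2)
  have b10 := VU_add_VD (P 1 1) N (q 0)
  have b12 := VU_add_VD (P 1 1) N (q 2)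
  have b20 := VU_add_VD (P 1 2) N (q 0)
  have b21 := VU_add_VD (P 1 2) N (q 1)
  rw [h0, h1] at b01 b02 b10 b12 b20 b21
  generalize (if (q 0).1 < (q 1).1 then (1 : ZMod 2) else 0) = c01 at *
  generalize (if (q 1).1 < (q 0).1 then (1 : ZMod 2) else 0) = c10 at *
  generalize (if (q 0).1 < (q 2).1 then (1 : ZMod 2) else 0) = c02 at *
  generalize (if (q 2).1 < (q 0).1 then (1 : ZMod 2) else 0) = c20 at *
  generalize (if (q 1).1 < (q 2).1 then (1 : ZMod 2) else 0) = c12 at *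
  generalize (if (q 2).1 < (q 1).1 then (1 : ZMod 2) else 0) = c21 at *
  generalize (if (p 1).1 < (q 0).1 then (1 : ZMod 2) else 0) = d0 at *
  generalize (if (p 1).1 < (q 1).1 then (1 : ZMod 2) else 0) = d1 at *
  generalize (if (p 1).1 < (q 2).1 then (1 : ZMod 2) else 0) = d2 at *
  linear_combination (exp := 1) b01 + b02 + b10 + b12 + b20 + b21 + a01 + a02 + a12 + (d0 + d1 + d2) * two
    + two
    + (VU (P 0 0) N (p 1) + VU (P 0 1) N (p 1) + VU (P 0 2) N (p 1)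
      + VU (P 0 0) N (p 2) + VU (P 0 1) N (p 2) + VU (P 0 2) N (p 2)
      + VU (P 1 0) N (p 2) + VU (P 1 1) N (p 2) + VU (P 1 2) N (p 2)
      + VD (P 1 0) N (p 0) + VD (P 1 1) N (p 0) + VD (P 1 2) N (p 0)
      + VD (P 2 0) N (p 0) + VD (P 2 1) N (p 0) + VD (P 2 2) N (p 0)
      + VD (P 2 0) N (p 1) + VD (P 2 1) N (p 1) + VD (P 2 2) N (p 1)
      + VU (P 0 0) N (q 1) + VU (P 0 0) N (q 2) + VU (P 0 1) N (q 0) + VU (P 0 1) N (q 2)
      + VU (P 0 2) N (q 0) + VU (P 0 2) N (q 1)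
      + VD (P 2 0) N (q 1) + VD (P 2 0) N (q 2) + VD (P 2 1) N (q 0) + VD (P 2 1) N (q 2)
      + VD (P 2 2) N (q 0) + VD (P 2 2) N (q 1)) * two

end Pool.Agent.Helper38.PL
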