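import Mathlib
import Pool.Agent.Helper38.PL.Cross

/-!
# The complete bipartite graph with parts of size three has no plane drawing
-/

set_option autoImplicit false

namespace Pool.Agent.Helper38.PL

open Finset Filter Topology

/-- the shear `(u, v) ↦ (u + θ v, v)` -/
def shear (θ : ℝ) (a : ℝ × ℝ) : ℝ × ℝ := (a.1 + θ * a.2, a.2)

/-- only one shear sends two different points to points with the same abscissa -/
theorem shear_bad {a b : ℝ × ℝ} (hab : a ≠ b) :
    {θ : ℝ | (shear θ a).1 = (shear θ b).1}.Finite := by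
  by_cases h : a.2 = b.2
  · have h1 : a.1 ≠ b.1 := fun h2 => hab (Prod.ext h2 h)
    have : {θ : ℝ | (shear θ a).1 = (shear θ b).1} = ∅ := by
      ext θ
      simp only [shear, Set.mem_ofPred_eq, Set.mem_empty_iff_false, iff_false]
      intro h2
      rw [h] at h2
      exact h1 (add_right_cancel h2)
    rw [this]
    exact Set.finite_empty
  · apply Set.Finite.subset (Set.finite_singleton ((b.1 - a.1) / (a.2 - b.2)))
    intro θ hθ
    simp only [shear, Set.mem_ofPred_eq] at hθ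
    rw [Set.mem_singleton_iff, eq_div_iff (sub_ne_zero.mpr h)]
    linarith

/-- polygonal version: there are two independent segments which meet -/
theorem K33_polygons (P : Fin 3 → Fin 3 → ℕ → ℝ × ℝ) (N : ℕ) (p q : Fin 3 → ℝ × ℝ)
    (h0 : ∀ i j, P i j 0 = p i) (h1 : ∀ i j, P i j N = q j)
    (hd : ∀ i j k l, i ≠ k → j ≠ l → ∀ m ≤ N, ∀ n ≤ N, P i j m ≠ P k l n) :
    ∃ i j k l, i ≠ k ∧ j ≠ l ∧ ∃ m < N, ∃ n < N, ∃ s t : ℝ, (0 ≤ s ∧ s ≤ 1) ∧ (0 ≤ t ∧ t ≤ 1) ∧
      (P i j m).1 + s * ((P i j (m + 1)).1 - (P i j m).1)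
        = (P k l n).1 + t * ((P k l (n + 1)).1 - (P k l n).1) ∧
      (P i j m).2 + s * ((P i j (m + 1)).2 - (P i j m).2)
        = (P k l n).2 + t * ((P k l (n + 1)).2 - (P k l n).2) := by
  classical
  obtain ⟨θ, hθ⟩ : ∃ θ : ℝ, ∀ i j k l, i ≠ k → j ≠ l → ∀ m ≤ N, ∀ n ≤ N,
      (shear θ (P i j m)).1 ≠ (shear θ (P k l n)).1 := by
    have hfin : (⋃ x ∈ {x : (Fin 3 × Fin 3 × Fin 3 × Fin 3) × (ℕ × ℕ) |
        (x.1.1 ≠ x.1.2.2.1 ∧ x.1.2.1 ≠ x.1.2.2.2) ∧ (x.2.1 ≤ N ∧ x.2.2 ≤ N)},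
        {θ : ℝ | (shear θ (P x.1.1 x.1.2.1 x.2.1)).1
          = (shear θ (P x.1.2.2.1 x.1.2.2.2 x.2.2)).1}).Finite := by
      apply Set.Finite.biUnion
      · apply Set.Finite.subset (Set.Finite.prod
          (Set.finite_univ (α := Fin 3 × Fin 3 × Fin 3 × Fin 3))
          (Set.Finite.prod (Set.finite_Iic N) (Set.finite_Iic N)))
        intro x hx
        simp only [Set.mem_ofPred_eq] at hx
        exact ⟨Set.mem_univ _, hx.2.1, hx.2.2⟩
      · intro x hx
        simp only [Set.mem_ofPred_eq] at hx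
        exact shear_bad (hd _ _ _ _ hx.1.1 hx.1.2 _ hx.2.1 _ hx.2.2)
    obtain ⟨θ, hθ⟩ := hfin.infinite_compl.nonempty
    refine ⟨θ, ?_⟩
    intro i j k l hik hjl m hm n hn he
    apply hθ
    simp only [Set.mem_iUnion, Set.mem_ofPred_eq]
    exact ⟨((i, j, k, l), (m, n)), ⟨⟨hik, hjl⟩, hm, hn⟩, he⟩
  by_contra hcon
  have hcr : ∀ i j k l, i ≠ k → j ≠ l →
      CR (fun m => shear θ (P i j m)) (fun m => shear θ (P k l m)) N = 0 := by
    intro i j k l hik hjl
    unfold CR
    apply sum_eq_zero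
    intro m hm
    apply sum_eq_zero
    intro n hn
    rw [mem_range] at hm hn
    rcases zmod2_cases (cr (shear θ (P i j m)) (shear θ (P i j (m + 1))) (shear θ (P k l n))
      (shear θ (P k l (n + 1)))) with h | h
    · exact h
    · exfalso
      obtain ⟨s, t, hs, ht, e1, e2⟩ := meet_of_cr (hθ i j k l hik hjl m hm.le n hn.le)
        (hθ i j k l hik hjl m hm.le (n + 1) hn) (hθ i j k l hik hjl (m + 1) hm n hn.le)
        (hθ i j k l hik hjl (m + 1) hm (n + 1) hn) h
      simp only [shear] at e1 e2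
      exact hcon ⟨i, j, k, l, hik, hjl, m, hm, n, hn, s, t, hs, ht,
        by linear_combination e1 - θ * e2, e2⟩
  have hpar := K33_parity (fun i j m => shear θ (P i j m)) N (fun i => shear θ (p i))
    (fun j => shear θ (q j)) (fun i j => by simp only [h0]) (fun i j => by simp only [h1])
    (by
      intro j l hjl
      have := hθ 0 j 1 l (by decide) hjl N (le_refl _) N (le_refl _)
      rw [h1, h1] at this
      exact this)
  rw [hcr 0 0 1 1 (by decide) (by decide), hcr 0 0 1 2 (by decide) (by decide),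
    hcr 0 1 1 0 (by decide) (by decide), hcr 0 1 1 2 (by decide) (by decide),
    hcr 0 2 1 0 (by decide) (by decide), hcr 0 2 1 1 (by decide) (by decide),
    hcr 0 0 2 1 (by decide) (by decide), hcr 0 0 2 2 (by decide) (by decide),
    hcr 0 1 2 0 (by decide) (by decide), hcr 0 1 2 2 (by decide) (by decide),
    hcr 0 2 2 0 (by decide) (by decide), hcr 0 2 2 1 (by decide) (by decide),
    hcr 1 0 2 1 (by decide) (by decide), hcr 1 0 2 2 (by decide) (by decide),
    hcr 1 1 2 0 (by decide) (by decide), hcr 1 1 2 2 (by decide) (by decide),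
    hcr 1 2 2 0 (by decide) (by decide), hcr 1 2 2 1 (by decide) (by decide)] at hpar
  exact absurd hpar (by decide)

/-- a path in the plane with parameter extended to the whole line -/
noncomputable def ext (γ : C(unitInterval, ℝ × ℝ)) (t : ℝ) : ℝ × ℝ :=
  γ (Set.projIcc 0 1 zero_le_one t)

/-- Disjoint compact curves have positive distance. -/
theorem dist_pos_of_disjoint (γ δ : C(unitInterval, ℝ × ℝ)) (h : ∀ s t, γ s ≠ δ t) :
    ∃ ε > 0, ∀ s t, ε ≤ dist (γ s) (δ t) := by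
  have hc : Continuous (fun x : unitInterval × unitInterval => dist (γ x.1) (δ x.2)) := by
    fun_prop
  obtain ⟨x, -, hx⟩ := isCompact_univ.exists_isMinOn (Set.univ_nonempty) hc.continuousOn
  refine ⟨dist (γ x.1) (δ x.2), dist_pos.mpr (h _ _), ?_⟩
  intro s t
  exact hx (Set.mem_univ (s, t))

theorem mesh (γ : C(unitInterval, ℝ × ℝ)) {ε : ℝ} (hε : 0 < ε) :
    ∀ᶠ N : ℕ in atTop, ∀ m < N,
      dist (ext γ ((m : ℝ) / N)) (ext γ (((m + 1 : ℕ) : ℝ) / N)) < ε := by
  have huc : UniformContinuous (ext γ) := by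
    have h1 : UniformContinuous (γ : unitInterval → ℝ × ℝ) :=
      CompactSpace.uniformContinuous_of_continuous γ.continuous
    have h2 : UniformContinuous (Set.projIcc (0 : ℝ) 1 zero_le_one) :=
      (LipschitzWith.projIcc (a := (0 : ℝ)) (b := 1) zero_le_one).uniformContinuous
    exact h1.comp h2
  rw [Metric.uniformContinuous_iff] at huc
  obtain ⟨δ, hδ, h⟩ := huc ε hε
  obtain ⟨M, hM⟩ := exists_nat_gt (1 / δ)
  filter_upwards [eventually_ge_atTop (M + 1)] with N hN m hm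
  apply h
  have hNpos : (0 : ℝ) < N := by
    have : 0 < N := by omega
    exact_mod_cast this
  rw [Real.dist_eq, ← sub_div]
  have : ((m : ℝ) - ((m + 1 : ℕ) : ℝ)) / N = - (1 / N) := by
    push_cast
    ring
  rw [this, abs_neg, abs_of_pos (by positivity)]
  rw [one_div_lt hNpos hδ]
  apply lt_trans hM
  exact_mod_cast hN

theorem seg_dist (a b : ℝ × ℝ) {s : ℝ} (hs0 : 0 ≤ s) (hs1 : s ≤ 1) {z : ℝ × ℝ}
    (h1 : z.1 = a.1 + s * (b.1 - a.1)) (h2 : z.2 = a.2 + s * (b.2 - a.2)) :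
    dist a z ≤ dist a b := by
  rw [Prod.dist_eq, Prod.dist_eq, h1, h2, Real.dist_eq, Real.dist_eq, Real.dist_eq, Real.dist_eq]
  have e1 : a.1 - (a.1 + s * (b.1 - a.1)) = s * (a.1 - b.1) := by ring
  have e2 : a.2 - (a.2 + s * (b.2 - a.2)) = s * (a.2 - b.2) := by ring
  rw [e1, e2, abs_mul, abs_mul, abs_of_nonneg hs0]
  apply max_le_max
  · exact mul_le_of_le_one_left (abs_nonneg _) hs1
  · exact mul_le_of_le_one_left (abs_nonneg _) hs1

/-- There is no plane drawing of the complete bipartite graph with parts of size three, even if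
adjacent edges are allowed to meet. -/
theorem K33_curves (γ : Fin 3 → Fin 3 → C(unitInterval, ℝ × ℝ)) (p q : Fin 3 → ℝ × ℝ)
    (h0 : ∀ i j, γ i j 0 = p i) (h1 : ∀ i j, γ i j 1 = q j)
    (hd : ∀ i j k l, i ≠ k → j ≠ l → ∀ s t, γ i j s ≠ γ k l t) : False := by
  have hε : ∃ ε > 0, ∀ i j k l, i ≠ k → j ≠ l → ∀ s t, ε ≤ dist (γ i j s) (γ k l t) := by
    have key : ∀ᶠ ε in 𝓝[>] (0 : ℝ), ∀ i j k l, i ≠ k → j ≠ l →
        ∀ s t, ε ≤ dist (γ i j s) (γ k l t) := by
      rw [eventually_all]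
      intro i
      rw [eventually_all]
      intro j
      rw [eventually_all]
      intro k
      rw [eventually_all]
      intro l
      by_cases hik : i ≠ k
      · by_cases hjl : j ≠ l
        · obtain ⟨ε, hε, h⟩ := dist_pos_of_disjoint (γ i j) (γ k l) (hd i j k l hik hjl)
          filter_upwards [Ioc_mem_nhdsGT hε] with ε' hε' _ _ s t
          exact le_trans hε'.2 (h s t)
        · exact Eventually.of_forall fun _ _ h => absurd h hjl
      · exact Eventually.of_forall fun _ h => absurd h hik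
    obtain ⟨ε, h, hpos⟩ := (key.and self_mem_nhdsWithin).exists
    exact ⟨ε, hpos, h⟩
  obtain ⟨ε, hε, hdist⟩ := hε
  have hN : ∀ᶠ N : ℕ in atTop, ∀ i j, ∀ m < N,
      dist (ext (γ i j) ((m : ℝ) / N)) (ext (γ i j) (((m + 1 : ℕ) : ℝ) / N)) < ε / 2 := by
    rw [eventually_all]
    intro i
    rw [eventually_all]
    intro j
    exact mesh (γ i j) (half_pos hε)
  obtain ⟨N, hN, hNpos⟩ := (hN.and (eventually_gt_atTop 0)).exists
  have hNr : (0 : ℝ) < N := by exact_mod_cast hNpos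
  have hP := K33_polygons (fun i j m => ext (γ i j) ((m : ℝ) / N)) N p q
    (by
      intro i j
      unfold ext
      rw [← h0 i j, Nat.cast_zero, zero_div]
      congr 1
      exact Set.projIcc_left _)
    (by
      intro i j
      unfold ext
      rw [← h1 i j, div_self hNr.ne']
      congr 1
      exact Set.projIcc_right _)
    (fun i j k l hik hjl m _ n _ => hd i j k l hik hjl _ _)
  obtain ⟨i, j, k, l, hik, hjl, m, hm, n, hn, s, t, hs, ht, e1, e2⟩ := hP
  have d1 := seg_dist (ext (γ i j) ((m : ℝ) / N)) (ext (γ i j) (((m + 1 : ℕ) : ℝ) / N)) hs.1 hs.2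
    (z := (_, _)) rfl rfl
  have d2 := seg_dist (ext (γ k l) ((n : ℝ) / N)) (ext (γ k l) (((n + 1 : ℕ) : ℝ) / N)) ht.1 ht.2
    (z := (_, _)) rfl rfl
  rw [e1, e2] at d1
  have d3 := hdist i j k l hik hjl (Set.projIcc 0 1 zero_le_one ((m : ℝ) / N))
    (Set.projIcc 0 1 zero_le_one ((n : ℝ) / N))
  have d4 := hN i j m hm
  have d5 := hN k l n hn
  have d6 := dist_triangle_right (ext (γ i j) ((m : ℝ) / N)) (ext (γ k l) ((n : ℝ) / N))
    (((ext (γ k l) ((n : ℝ) / N)).1
        + t * ((ext (γ k l) (((n + 1 : ℕ) : ℝ) / N)).1 - (ext (γ k l) ((n : ℝ) / N)).1)),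
      ((ext (γ k l) ((n : ℝ) / N)).2
        + t * ((ext (γ k l) (((n + 1 : ℕ) : ℝ) / N)).2 - (ext (γ k l) ((n : ℝ) / N)).2)))
  change ε ≤ dist (ext (γ i j) ((m : ℝ) / N)) (ext (γ k l) ((n : ℝ) / N)) at d3
  linarith

end Pool.Agent.Helper38.PL
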