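import Mathlib
import Pool.Agent.Helper38.PL.Curves

/-!
# A graph with a plane drawing has no minor isomorphic to `K_{3,3}`
-/

set_option autoImplicit false

namespace Pool.Agent.Helper38.PL

open Finset Filter Topology

variable {V : Type*}

/-- `G` has a plane drawing (the wording of the frozen statement). -/
def PlaneDrawn (G : SimpleGraph V) : Prop :=
  ∃ (f : V → ℝ × ℝ) (γ : V → V → C(unitInterval, ℝ × ℝ)),
      Function.Injective f ∧
      (∀ u v, G.Adj u v →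
        γ u v 0 = f u ∧ γ u v 1 = f v ∧ Function.Injective ⇑(γ u v) ∧
        ∀ t : unitInterval, t ≠ 0 → t ≠ 1 → ∀ w, γ u v t ≠ f w) ∧
      (∀ u v u' v', G.Adj u v → G.Adj u' v' → s(u, v) ≠ s(u', v') →
        ∀ t t' : unitInterval, t ≠ 0 → t ≠ 1 → t' ≠ 0 → t' ≠ 1 →
          γ u v t ≠ γ u' v' t')

/-- A model of `K_{3,3}` as a minor of `G`. -/
structure IsK33 (G : SimpleGraph V) (A B : Fin 3 → Set V) : Prop where
  connA : ∀ i, (G.induce (A i)).Connected
  connB : ∀ j, (G.induce (B j)).Connected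
  disjA : ∀ i k, i ≠ k → Disjoint (A i) (A k)
  disjB : ∀ j l, j ≠ l → Disjoint (B j) (B l)
  disjAB : ∀ i j, Disjoint (A i) (B j)
  adj : ∀ i j, ∃ a ∈ A i, ∃ b ∈ B j, G.Adj a b

/-- the part of the drawing spanned by `S` -/
def img (G : SimpleGraph V) (f : V → ℝ × ℝ) (γ : V → V → C(unitInterval, ℝ × ℝ)) (S : Set V) :
    Set (ℝ × ℝ) :=
  f '' S ∪ {z | ∃ u ∈ S, ∃ v ∈ S, G.Adj u v ∧ ∃ t, γ u v t = z}

theorem joined_adj {G : SimpleGraph V} {f : V → ℝ × ℝ} {γ : V → V → C(unitInterval, ℝ × ℝ)}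
    (h0 : ∀ u v, G.Adj u v → γ u v 0 = f u ∧ γ u v 1 = f v) {S : Set V} {u v : V}
    (hu : u ∈ S) (hv : v ∈ S) (huv : G.Adj u v) : JoinedIn (img G f γ S) (f u) (f v) := by
  refine ⟨⟨γ u v, (h0 u v huv).1, (h0 u v huv).2⟩, ?_⟩
  intro t
  right
  exact ⟨u, hu, v, hv, huv, t, rfl⟩

theorem joined_of_reachable {G : SimpleGraph V} {f : V → ℝ × ℝ}
    {γ : V → V → C(unitInterval, ℝ × ℝ)}
    (h0 : ∀ u v, G.Adj u v → γ u v 0 = f u ∧ γ u v 1 = f v) {S : Set V} {u v : S}
    (h : (G.induce S).Reachable u v) : JoinedIn (img G f γ S) (f u) (f v) := by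
  obtain ⟨w⟩ := h
  induction w with
  | nil => exact JoinedIn.refl (Or.inl ⟨_, Subtype.property _, rfl⟩)
  | cons hadj _ ih =>
    refine JoinedIn.trans (joined_adj h0 (Subtype.property _) (Subtype.property _) ?_) ih
    exact hadj

theorem img_mono (G : SimpleGraph V) (f : V → ℝ × ℝ) (γ : V → V → C(unitInterval, ℝ × ℝ))
    {S T : Set V} (h : S ⊆ T) : img G f γ S ⊆ img G f γ T := by
  rintro z (⟨a, ha, rfl⟩ | ⟨u, hu, v, hv, huv, t, ht⟩)
  · exact Or.inl ⟨a, h ha, rfl⟩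
  · exact Or.inr ⟨u, h hu, v, h hv, huv, t, ht⟩

/-- the drawing of disjoint sets is disjoint -/
theorem img_disjoint {G : SimpleGraph V} {f : V → ℝ × ℝ} {γ : V → V → C(unitInterval, ℝ × ℝ)}
    (hf : Function.Injective f)
    (h1 : ∀ u v, G.Adj u v →
        γ u v 0 = f u ∧ γ u v 1 = f v ∧ Function.Injective ⇑(γ u v) ∧
        ∀ t : unitInterval, t ≠ 0 → t ≠ 1 → ∀ w, γ u v t ≠ f w)
    (h2 : ∀ u v u' v', G.Adj u v → G.Adj u' v' → s(u, v) ≠ s(u', v') →
        ∀ t t' : unitInterval, t ≠ 0 → t ≠ 1 → t' ≠ 0 → t' ≠ 1 →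
          γ u v t ≠ γ u' v' t')
    {S T : Set V} (hST : Disjoint S T) : Disjoint (img G f γ S) (img G f γ T) := by
  -- a point of the drawing is a vertex or an inner point of an edge
  have key : ∀ R : Set V, ∀ z ∈ img G f γ R, (∃ a ∈ R, f a = z) ∨
      ∃ u ∈ R, ∃ v ∈ R, G.Adj u v ∧ ∃ t : unitInterval, t ≠ 0 ∧ t ≠ 1 ∧ γ u v t = z := by
    rintro R z (⟨a, ha, rfl⟩ | ⟨u, hu, v, hv, huv, t, ht⟩)
    · exact Or.inl ⟨a, ha, rfl⟩
    · by_cases t0 : t = 0
      · left
        rw [t0, (h1 u v huv).1] at ht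
        exact ⟨u, hu, ht⟩
      · by_cases t1 : t = 1
        · left
          rw [t1, (h1 u v huv).2.1] at ht
          exact ⟨v, hv, ht⟩
        · exact Or.inr ⟨u, hu, v, hv, huv, t, t0, t1, ht⟩
  rw [Set.disjoint_left]
  intro z hzS hzT
  rw [Set.disjoint_left] at hST
  rcases key S z hzS with ⟨a, ha, hz⟩ | ⟨u, hu, v, hv, huv, t, ht0, ht1, ht⟩
  · rcases key T z hzT with ⟨b, hb, hz'⟩ | ⟨u', hu', v', hv', huv', t', ht0', ht1', ht'⟩
    · have := hf (hz.trans hz'.symm)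
      rw [this] at ha
      exact hST ha hb
    · exact (h1 u' v' huv').2.2.2 t' ht0' ht1' a (ht'.trans hz.symm)
  · rcases key T z hzT with ⟨b, hb, hz'⟩ | ⟨u', hu', v', hv', huv', t', ht0', ht1', ht'⟩
    · exact (h1 u v huv).2.2.2 t ht0 ht1 b (ht.trans hz'.symm)
    · refine h2 u v u' v' huv huv' ?_ t t' ht0 ht1 ht0' ht1' (ht.trans ht'.symm)
      intro he
      have : u ∈ s(u', v') := by
        rw [← he]
        exact Sym2.mem_mk_left u v
      rcases Sym2.mem_iff.mp this with h | h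
      · rw [h] at hu
        exact hST hu hu'
      · rw [h] at hu
        exact hST hu hv'

/-- A graph with a plane drawing has no `K_{3,3}` minor. -/
theorem PlaneDrawn.no_K33 {G : SimpleGraph V} (hG : PlaneDrawn G) (A B : Fin 3 → Set V) :
    ¬ IsK33 G A B := by
  intro hK
  obtain ⟨f, γ, hf, h1, h2⟩ := hG
  have h0 : ∀ u v, G.Adj u v → γ u v 0 = f u ∧ γ u v 1 = f v :=
    fun u v h => ⟨(h1 u v h).1, (h1 u v h).2.1⟩
  choose a ha b hb hab using hK.adj
  have hAne : ∀ i, (A i).Nonempty := fun i => ⟨a i 0, ha i 0⟩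
  have hBne : ∀ j, (B j).Nonempty := fun j => ⟨b 0 j, hb 0 j⟩
  choose p hp using hAne
  choose q hq using hBne
  have hjoin : ∀ i j, JoinedIn (img G f γ (A i ∪ B j)) (f (p i)) (f (q j)) := by
    intro i j
    have s1 : JoinedIn (img G f γ (A i ∪ B j)) (f (p i)) (f (a i j)) :=
      (joined_of_reachable h0 ((hK.connA i).preconnected ⟨p i, hp i⟩ ⟨a i j, ha i j⟩)).mono
        (img_mono G f γ Set.subset_union_left)
    have s2 : JoinedIn (img G f γ (A i ∪ B j)) (f (a i j)) (f (b i j)) :=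
      joined_adj h0 (Or.inl (ha i j)) (Or.inr (hb i j)) (hab i j)
    have s3 : JoinedIn (img G f γ (A i ∪ B j)) (f (b i j)) (f (q j)) :=
      (joined_of_reachable h0 ((hK.connB j).preconnected ⟨b i j, hb i j⟩ ⟨q j, hq j⟩)).mono
        (img_mono G f γ Set.subset_union_right)
    exact (s1.trans s2).trans s3
  choose P hP using hjoin
  refine K33_curves (fun i j => (P i j).toContinuousMap) (fun i => f (p i)) (fun j => f (q j))
    (fun i j => (P i j).source) (fun i j => (P i j).target) ?_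
  intro i j k l hik hjl s t he
  have hdis : Disjoint (A i ∪ B j) (A k ∪ B l) := by
    rw [Set.disjoint_union_left, Set.disjoint_union_right, Set.disjoint_union_right]
    exact ⟨⟨hK.disjA i k hik, hK.disjAB i l⟩, (hK.disjAB k j).symm, hK.disjB j l hjl⟩
  have := img_disjoint hf h1 h2 hdis
  rw [Set.disjoint_left] at this
  refine this (hP i j s) ?_
  have he' : P i j s = P k l t := he
  rw [he']
  exact hP k l t

end Pool.Agent.Helper38.PL
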